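import Pool.Agent.Helper66.NQ.Orb
import Pool.Agent.Helper89.NQ.Rec
import Pool.Agent.Helper1.NQ.Root
import Pool.Agent.Helper60.NW.Cf

/-!
# Q8a: all types together, for sound programs
-/

set_option autoImplicit false

namespace Pool.Agent.Helper78.NQ

open Finset Pool.Agent.Helper19.NF Pool.Agent.Helper74.NW Pool.Agent.Helper99.NQ
open Pool.Agent.Helper74.NE (fine fine_apply)
open Pool.Agent.Helper1.NQ (root_full card_tab)
open Pool.Agent.Helper89.NQ (exists_inE)

section count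

variable {X τ : Type} [Finite X] [Fintype τ]

theorem card_le_add_sum {p q : X → Prop} {r : τ → X → Prop} (h : ∀ x, p x → q x ∨ ∃ t, r t x) :
    Nat.card {x // p x} ≤ Nat.card {x // q x} + ∑ t, Nat.card {x // r t x} := by
  classical
  have := Fintype.ofFinite X
  simp only [Nat.card_eq_fintype_card, Fintype.card_subtype]
  have h1 : univ.filter p ⊆ univ.filter q ∪ univ.biUnion (fun t => univ.filter (r t)) := by
    intro x hx
    rw [mem_filter] at hx
    rcases h x hx.2 with h2 | ⟨t, h2⟩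
    · exact mem_union_left _ (mem_filter.mpr ⟨mem_univ _, h2⟩)
    · exact mem_union_right _ (mem_biUnion.mpr ⟨t, mem_univ _, mem_filter.mpr ⟨mem_univ _, h2⟩⟩)
  exact (card_le_card h1).trans ((card_union_le _ _).trans (Nat.add_le_add_left card_biUnion_le _))

end count

section main

variable {n D m d S : ℕ} [NeZero m] {F B Z : Type} [Field F] [Fintype F] [AddCommGroup B] [Module F B] [Fintype B]

theorem free_card (c : List (B × Word D m B)) :
    (free c).card + Nat.card {x // x ∈ c} = Fintype.card (B × Word D m B) := by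
  classical
  have h1 : Nat.card {x // x ∈ c} = (univ.filter (fun z : B × Word D m B => z ∈ c)).card := by
    rw [Nat.card_eq_fintype_card, Fintype.card_subtype]
  have h2 : (free c).card = (univ.filter (fun z : B × Word D m B => ¬ z ∈ c)).card := by
    unfold free
    congr 1
  rw [h1, h2, add_comm, card_filter_add_card_filter_not, card_univ]

/-- few inputs have collisions -/
theorem card_cf (g : Fin D → Equiv.Perm (Fin n)) (x0 : Fin n × Fin m → B) (hx0 : Function.Injective x0) (R : ℕ)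
    (c0 : Fin D × Fin m) :
    (Nat.card {I : B × Word D m B → F // ¬ CF (fine g) x0 R (tab I)} : ℝ) ≤
      ((R + 1) * (n * m)) ^ 2 / Fintype.card B * Nat.card (B × Word D m B → F) := by
  classical
  have : Nonempty (Fin D × Fin m) := ⟨c0⟩
  have h1 := Pool.Agent.Helper60.NWF.card_not_CF (fine g) x0 hx0 R
  have h2 := card_tab (F := F) (D := D) (m := m) (B := B) (fun J => ¬ CF (fine g) x0 R J)
  rw [Fintype.card_prod, Fintype.card_fin, Fintype.card_fin] at h1
  have hB : (0 : ℝ) < Fintype.card B := by exact_mod_cast Fintype.card_pos_iff.mpr ⟨(0 : B)⟩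
  have hN : (0 : ℝ) < Nat.card (B → Word D m B) := by exact_mod_cast Nat.card_pos
  have h1' : (Nat.card {J : B → Word D m B // ¬ CF (fine g) x0 R J} : ℝ) * Fintype.card B ≤
      ((R + 1) * (n * m)) ^ 2 * Nat.card (B → Word D m B) := by exact_mod_cast h1
  have h2' : (Nat.card {I : B × Word D m B → F // ¬ CF (fine g) x0 R (tab I)} : ℝ) * Nat.card (B → Word D m B) =
      Nat.card {J : B → Word D m B // ¬ CF (fine g) x0 R J} * Nat.card (B × Word D m B → F) := by exact_mod_cast h2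
  have hF : (0 : ℝ) ≤ Nat.card (B × Word D m B → F) := Nat.cast_nonneg _
  refine le_of_mul_le_mul_right ?_ (mul_pos hB hN)
  calc (Nat.card {I : B × Word D m B → F // ¬ CF (fine g) x0 R (tab I)} : ℝ) *
        ((Fintype.card B : ℝ) * Nat.card (B → Word D m B))
      = Nat.card {J : B → Word D m B // ¬ CF (fine g) x0 R J} * Fintype.card B *
          Nat.card (B × Word D m B → F) := by
        rw [mul_comm (Fintype.card B : ℝ), ← mul_assoc, h2']
        ring
    _ ≤ ((R + 1) * (n * m)) ^ 2 * Nat.card (B → Word D m B) * Nat.card (B × Word D m B → F) :=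
        mul_le_mul_of_nonneg_right h1' hF
    _ = _ := by
        field_simp

/-- Programs all of whose computations make all nodes of row `R` full, with at most `a` exceptions. -/
theorem forced_bound (P : NProg (B × Word D m B) F Z S) (g : Fin D → Equiv.Perm (Fin n)) (x0 : Fin n × Fin m → B)
    (h T a R κ j : ℕ)
    (hX : ∀ X : Finset (Fin n), n ≤ 4 * X.card → n ≤ (X.biUnion (fun u => univ.image (fun s => g s u))).card + a)
    (ha : a < n) (hS : S ≤ 2 ^ R)
    (hL : h + 1 ≤ Fintype.card (Word D m B)) (hq : Fintype.card (Word D m B) ≤ h * Fintype.card F)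
    (hT : T ≤ Fintype.card (B × Word D m B)) (η : ℝ)
    (hη : η = 1 + (1 - (T : ℝ) / Fintype.card (B × Word D m B) - (h : ℝ) / Fintype.card (Word D m B)) / 2)
    (hη1 : 1 ≤ η) (hκ : 2 * a ≤ κ) (hj : 2 * j ≤ n) :
    (Nat.card {I : B × Word D m B → F // CF (fine g) x0 R (tab I) ∧ (∃ l z, P.Ends I l z) ∧
      ∀ l z, P.Ends I l z → Nat.card {x // x ∈ l} ≤ T ∧ n ≤ (full g x0 h R I (free l)).card + a} : ℝ) ≤
      R * S ^ 3 * 2 ^ n * (D * m) ^ (2 * n) *
          err n m d a κ j (Fintype.card F) ((h : ℝ) / Fintype.card (Word D m B)) η *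
        Nat.card (B × Word D m B → F) := by
  classical
  let τ : Type := Fin R × (Fin S × Fin S × Fin S) × {J : Finset (Fin n) // n ≤ 2 * J.card} ×
    ((Fin n → Fin D × Fin m) × (Fin n → Fin D × Fin m))
  -- every input has a type
  have hcov : ∀ I : B × Word D m B → F, (CF (fine g) x0 R (tab I) ∧ (∃ l z, P.Ends I l z) ∧
      ∀ l z, P.Ends I l z → Nat.card {x // x ∈ l} ≤ T ∧ n ≤ (full g x0 h R I (free l)).card + a) → False ∨
      ∃ θ : τ, InE P g x0 h T a θ.1 θ.2.1.1 θ.2.1.2.1 θ.2.1.2.2 θ.2.2.1.1 θ.2.2.2.1 θ.2.2.2.2 I := by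
    rintro I ⟨hcf, ⟨l0, z0, h0⟩, hTl⟩
    right
    obtain ⟨l, z, t, hb, hz, hs⟩ := exists_best (Fintype.equivFin (B × Word D m B)) h0
    have hF : Force P g x0 h T a R P.start t I := by
      intro c hc
      obtain ⟨h1, h2⟩ := hTl c z ⟨t, hc, hz⟩
      have h3 := free_card c
      exact ⟨h2, by omega⟩
    obtain ⟨i, hi, s', p, t', J, h1, h2, hJ, hE⟩ := exists_inE P g x0 h T a R hX ha hL hcf hF hb.run
      ((shortest_lt hs).le.trans hS)
    exact ⟨(⟨i, hi⟩, (s', p, t'), ⟨J, hJ⟩, h1, h2), hE⟩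
  have h1 := card_le_add_sum hcov
  have h0 : Nat.card {I : B × Word D m B → F // False} = 0 := by
    rw [Nat.card_eq_zero]
    exact Or.inl ⟨fun x => x.2⟩
  rw [h0, zero_add] at h1
  have h2 : (Nat.card {I : B × Word D m B → F // CF (fine g) x0 R (tab I) ∧ (∃ l z, P.Ends I l z) ∧
      ∀ l z, P.Ends I l z → Nat.card {x // x ∈ l} ≤ T ∧ n ≤ (full g x0 h R I (free l)).card + a} : ℝ) ≤
        ∑ θ : τ, (Nat.card {I : B × Word D m B → F //
          InE P g x0 h T a θ.1 θ.2.1.1 θ.2.1.2.1 θ.2.1.2.2 θ.2.2.1.1 θ.2.2.2.1 θ.2.2.2.2 I} : ℝ) := by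
    exact_mod_cast h1
  set er : ℝ := err n m d a κ j (Fintype.card F) ((h : ℝ) / Fintype.card (Word D m B)) η with her
  have her0 : 0 ≤ er := by
    rw [her]
    unfold err
    have : 0 ≤ η := le_trans zero_le_one hη1
    positivity
  have hone : ∀ θ : τ, (Nat.card {I : B × Word D m B → F //
      InE P g x0 h T a θ.1 θ.2.1.1 θ.2.1.2.1 θ.2.1.2.2 θ.2.2.1.1 θ.2.2.2.1 θ.2.2.2.2 I} : ℝ) ≤
      er * Nat.card (B × Word D m B → F) := by
    intro θ
    have hjJ : j ≤ θ.2.2.1.1.card := by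
      have := θ.2.2.1.2
      omega
    exact Pool.Agent.Helper66.NQ.card_inE P g x0 h T a θ.1 κ j _ _ _ _ _ _ hjJ (by omega) hq hT η hη hη1 hκ
  have hτ : (Fintype.card τ : ℝ) ≤ R * S ^ 3 * 2 ^ n * (D * m) ^ (2 * n) := by
    have h3 : Fintype.card τ = R * ((S * (S * S)) * (Fintype.card {J : Finset (Fin n) // n ≤ 2 * J.card} *
        ((D * m) ^ n * (D * m) ^ n))) := by
      show Fintype.card (Fin R × (Fin S × Fin S × Fin S) × {J : Finset (Fin n) // n ≤ 2 * J.card} ×
        ((Fin n → Fin D × Fin m) × (Fin n → Fin D × Fin m))) = _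
      simp only [Fintype.card_prod, Fintype.card_fin, Fintype.card_fun]
    have h4 : Fintype.card {J : Finset (Fin n) // n ≤ 2 * J.card} ≤ 2 ^ n := by
      refine (Fintype.card_subtype_le _).trans ?_
      rw [Fintype.card_finset, Fintype.card_fin]
    have h5 : Fintype.card τ ≤ R * ((S * (S * S)) * (2 ^ n * ((D * m) ^ n * (D * m) ^ n))) := by
      rw [h3]
      exact Nat.mul_le_mul_left _ (Nat.mul_le_mul_left _ (Nat.mul_le_mul_right _ h4))
    have h6 : R * ((S * (S * S)) * (2 ^ n * ((D * m) ^ n * (D * m) ^ n))) =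
        R * S ^ 3 * 2 ^ n * (D * m) ^ (2 * n) := by
      rw [two_mul n, pow_add]
      ring
    rw [h6] at h5
    exact_mod_cast h5
  refine h2.trans ?_
  calc ∑ θ : τ, (Nat.card {I : B × Word D m B → F //
          InE P g x0 h T a θ.1 θ.2.1.1 θ.2.1.2.1 θ.2.1.2.2 θ.2.2.1.1 θ.2.2.2.1 θ.2.2.2.2 I} : ℝ)
      ≤ ∑ _θ : τ, er * Nat.card (B × Word D m B → F) := sum_le_sum fun θ _ => hone θ
    _ = Fintype.card τ * (er * Nat.card (B × Word D m B → F)) := by
        rw [sum_const, card_univ, nsmul_eq_mul]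
    _ ≤ (R * S ^ 3 * 2 ^ n * (D * m) ^ (2 * n)) * (er * Nat.card (B × Word D m B → F)) :=
        mul_le_mul_of_nonneg_right hτ (mul_nonneg her0 (Nat.cast_nonneg _))
    _ = _ := by ring

theorem main_bound (P : NProg (B × Word D m B) F Z S) (g : Fin D → Equiv.Perm (Fin n)) (x0 : Fin n × Fin m → B)
    (hx0 : Function.Injective x0) (h T a R κ j : ℕ) (c0 : Fin D × Fin m)
    (hX : ∀ X : Finset (Fin n), n ≤ 4 * X.card → n ≤ (X.biUnion (fun u => univ.image (fun s => g s u))).card + a)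
    (ha : a < n) (hS : S ≤ 2 ^ R) (Acc : Z → B → Prop) (hAcc : ∀ z, ∃ y, ¬ Acc z y)
    (hP : ∀ I l z, P.Ends I l z → Acc z (res (fine g) x0 R c0 (tab I)))
    (hL : h + 1 ≤ Fintype.card (Word D m B)) (hq : Fintype.card (Word D m B) < h * Fintype.card F)
    (hT : T ≤ Fintype.card (B × Word D m B)) (η : ℝ)
    (hη : η = 1 + (1 - (T : ℝ) / Fintype.card (B × Word D m B) - (h : ℝ) / Fintype.card (Word D m B)) / 2)
    (hη1 : 1 ≤ η) (hκ : 2 * a ≤ κ) (hj : 2 * j ≤ n) :
    (Nat.card {I : B × Word D m B → F // (∃ l z, P.Ends I l z) ∧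
      ∀ l z, P.Ends I l z → Nat.card {x // x ∈ l} ≤ T} : ℝ) ≤
      (((R + 1) * (n * m)) ^ 2 / Fintype.card B +
        R * S ^ 3 * 2 ^ n * (D * m) ^ (2 * n) *
          err n m d a κ j (Fintype.card F) ((h : ℝ) / Fintype.card (Word D m B)) η) *
        Nat.card (B × Word D m B → F) := by
  classical
  have h1 := forced_bound (d := d) P g x0 h T a R κ j hX ha hS hL hq.le hT η hη hη1 hκ hj
  have h2 := card_cf (F := F) g x0 hx0 R c0
  have hcov : ∀ I : B × Word D m B → F, ((∃ l z, P.Ends I l z) ∧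
      ∀ l z, P.Ends I l z → Nat.card {x // x ∈ l} ≤ T) → ¬ CF (fine g) x0 R (tab I) ∨
      ∃ _ : Unit, CF (fine g) x0 R (tab I) ∧ (∃ l z, P.Ends I l z) ∧
        ∀ l z, P.Ends I l z → Nat.card {x // x ∈ l} ≤ T ∧ n ≤ (full g x0 h R I (free l)).card + a := by
    rintro I ⟨h0, hTl⟩
    by_cases hcf : CF (fine g) x0 R (tab I)
    · refine Or.inr ⟨(), hcf, h0, fun l z hl => ⟨hTl l z hl, ?_⟩⟩
      rw [root_full P g x0 h R c0 Acc hAcc hP hq hcf hl, card_univ, Fintype.card_fin]
      exact Nat.le_add_right _ _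
    · exact Or.inl hcf
  have h3 := card_le_add_sum hcov
  rw [univ_unique, sum_singleton] at h3
  have h4 : (Nat.card {I : B × Word D m B → F // (∃ l z, P.Ends I l z) ∧
      ∀ l z, P.Ends I l z → Nat.card {x // x ∈ l} ≤ T} : ℝ) ≤
      (Nat.card {I : B × Word D m B → F // ¬ CF (fine g) x0 R (tab I)} : ℝ) +
      (Nat.card {I : B × Word D m B → F // CF (fine g) x0 R (tab I) ∧ (∃ l z, P.Ends I l z) ∧
        ∀ l z, P.Ends I l z → Nat.card {x // x ∈ l} ≤ T ∧ n ≤ (full g x0 h R I (free l)).card + a} : ℝ) := by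
    exact_mod_cast h3
  rw [add_mul]
  exact h4.trans (add_le_add h2 h1)

end main

end Pool.Agent.Helper78.NQ
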